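import Pool.Agent.Y6.M.Stm

/-!
# The weights of the concrete system (job EM-WTM)
-/

set_option autoImplicit false

open Set Filter Topology
open scoped ComplexConjugate

namespace Pool.Agent.Y161.EM.WTM

open Pool.Agent.Y6.M

lemma nsq_nonneg (k : Z3) : 0 ≤ nsq k := Finset.sum_nonneg fun j _ => sq_nonneg (k j)

lemma nsq_one (k : Z3) (hk : k ≠ 0) : 1 ≤ nsq k := by
  obtain ⟨j, hj⟩ := Function.ne_iff.1 hk
  have h1 : 1 ≤ k j ^ 2 := by
    have h2 : k j ≠ 0 := hj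
    have h3 : 0 < k j ^ 2 := by positivity
    omega
  have h2 : k j ^ 2 ≤ nsq k :=
    Finset.single_le_sum (f := fun j => k j ^ 2) (fun j _ => sq_nonneg (k j)) (Finset.mem_univ j)
  exact h1.trans h2

lemma NM_one (i : Md) : 1 ≤ NM i := by
  unfold NM
  exact_mod_cast nsq_one i.1.1 i.1.2

lemma abs_le_nsq (k : Z3) (j : Fin 3) : |(k j : ℝ)| ≤ (nsq k : ℝ) := by
  have h1 : |k j| ≤ k j ^ 2 := by
    rw [← sq_abs (k j)]
    have h2 : 0 ≤ |k j| := abs_nonneg _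
    rcases h2.eq_or_lt with h3 | h3
    · rw [← h3]; norm_num
    · nlinarith
  have h2 : k j ^ 2 ≤ nsq k :=
    Finset.single_le_sum (f := fun j => k j ^ 2) (fun j _ => sq_nonneg (k j)) (Finset.mem_univ j)
  exact_mod_cast h1.trans h2

lemma dt_cj_self (a : C3) : dt a (cj a) = ((∑ j, ‖a j‖ ^ 2 : ℝ) : ℂ) := by
  unfold dt cj
  push_cast
  refine Finset.sum_congr rfl fun j _ => ?_
  rw [Complex.mul_conj, Complex.normSq_eq_norm_sq]
  push_cast
  rfl

lemma norm_h_le {h : Md → C3} (hh : Frame h) (i : Md) (j : Fin 3) : ‖h i j‖ ≤ 1 := by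
  have h1 := hh.unit i
  rw [dt_cj_self] at h1
  have h2 : ∑ j, ‖h i j‖ ^ 2 = 1 := by exact_mod_cast h1
  have h3 : ‖h i j‖ ^ 2 ≤ ∑ j, ‖h i j‖ ^ 2 :=
    Finset.single_le_sum (f := fun j => ‖h i j‖ ^ 2) (fun j _ => sq_nonneg _) (Finset.mem_univ j)
  rw [h2] at h3
  have h4 : 0 ≤ ‖h i j‖ := norm_nonneg _
  nlinarith

lemma norm_dt_le {a b : C3} {A B : ℝ} (hA : 0 ≤ A) (ha : ∀ j, ‖a j‖ ≤ A)
    (hb : ∀ j, ‖b j‖ ≤ B) : ‖dt a b‖ ≤ 3 * (A * B) := by
  unfold dt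
  refine (norm_sum_le _ _).trans ?_
  have h1 : ∀ j ∈ (Finset.univ : Finset (Fin 3)), ‖a j * b j‖ ≤ A * B := by
    intro j _
    rw [norm_mul]
    exact mul_le_mul (ha j) (hb j) (norm_nonneg _) hA
  refine (Finset.sum_le_card_nsmul _ _ _ h1).trans ?_
  simp

lemma dt_comm (a b : C3) : dt a b = dt b a := by
  unfold dt
  exact Finset.sum_congr rfl fun j _ => mul_comm _ _

lemma dt_kc_add (a : C3) (k l : Z3) : dt a (kc (k + l)) = dt a (kc k) + dt a (kc l) := by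
  unfold dt kc
  rw [← Finset.sum_add_distrib]
  refine Finset.sum_congr rfl fun j _ => ?_
  rw [Pi.add_apply]
  push_cast
  ring

lemma size {h : Md → C3} (hh : Frame h) (i a b : Md) :
    ‖cK h i a b‖ ≤ (18 * Real.pi) * NM i ^ 1 := by
  have hpi := Real.pi_pos
  have hN := NM_one i
  unfold cK
  split_ifs with hab
  · have h1 : dt (h a) (kc b.1.1) = dt (h a) (kc i.1.1) := by
      rw [← hab, dt_kc_add, dt_comm (h a) (kc a.1.1), hh.perp a, zero_add]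
    rw [h1, norm_mul, norm_mul, norm_neg]
    have h2 : ‖(2 * Real.pi * Complex.I : ℂ)‖ = 2 * Real.pi := by
      rw [norm_mul, norm_mul, Complex.norm_I, mul_one, Complex.norm_real]
      rw [Real.norm_of_nonneg hpi.le]
      norm_num
    rw [h2]
    have h3 : ‖dt (h a) (kc i.1.1)‖ ≤ 3 * (1 * NM i) := by
      refine norm_dt_le zero_le_one (fun j => norm_h_le hh a j) fun j => ?_
      unfold kc
      rw [Complex.norm_intCast]
      exact abs_le_nsq i.1.1 j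
    have h4 : ‖dt (h b) (cj (h i))‖ ≤ 3 * (1 * 1) := by
      refine norm_dt_le zero_le_one (fun j => norm_h_le hh b j) fun j => ?_
      unfold cj
      rw [RCLike.norm_conj]
      exact norm_h_le hh i j
    calc 2 * Real.pi * ‖dt (h a) (kc i.1.1)‖ * ‖dt (h b) (cj (h i))‖
        ≤ 2 * Real.pi * (3 * (1 * NM i)) * (3 * (1 * 1)) := by gcongr
      _ = (18 * Real.pi) * NM i ^ 1 := by ring
  · rw [norm_zero]
    positivity

lemma sumZ : Summable (fun n : ℤ => (1 + (n : ℝ) ^ 2)⁻¹) := by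
  have h1 : Summable (fun n : ℤ => 1 / (n : ℝ) ^ 2) :=
    Real.summable_one_div_int_pow.2 (by norm_num)
  have h2 : Summable (fun n : ℤ => if n = 0 then (1 : ℝ) else 0) :=
    (hasSum_ite_eq 0 (1 : ℝ)).summable
  refine Summable.of_nonneg_of_le (fun n => by positivity) (fun n => ?_) (h1.add h2)
  split_ifs with hn
  · subst hn; norm_num
  · have h3 : (0 : ℝ) < (n : ℝ) ^ 2 := by
      have : (n : ℝ) ≠ 0 := by exact_mod_cast hn
      positivity
    rw [add_zero, one_div]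
    exact inv_anti₀ h3 (by linarith)

lemma summ : Summable (fun i : Md => (NM i ^ 3)⁻¹) := by
  let f : ℤ → ℝ := fun n => (1 + (n : ℝ) ^ 2)⁻¹
  have hf : Summable f := sumZ
  have hf0 : ∀ n, 0 ≤ f n := fun n => by positivity
  have h2 : Summable (fun p : ℤ × ℤ => f p.1 * f p.2) := hf.mul_of_nonneg hf hf0 hf0
  have h20 : 0 ≤ (fun p : ℤ × ℤ => f p.1 * f p.2) := fun p => mul_nonneg (hf0 _) (hf0 _)
  have h3 : Summable (fun p : ℤ × (ℤ × ℤ) => f p.1 * (f p.2.1 * f p.2.2)) :=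
    hf.mul_of_nonneg h2 hf0 h20
  have h30 : 0 ≤ (fun p : ℤ × (ℤ × ℤ) => f p.1 * (f p.2.1 * f p.2.2)) :=
    fun p => mul_nonneg (hf0 _) (mul_nonneg (hf0 _) (hf0 _))
  have hb : Summable (fun _ : Bool => (8 : ℝ)) := Summable.of_finite
  have h4 : Summable (fun p : Bool × (ℤ × (ℤ × ℤ)) => 8 * (f p.2.1 * (f p.2.2.1 * f p.2.2.2))) :=
    hb.mul_of_nonneg h3 (fun _ => by norm_num) h30
  let e : Md → Bool × (ℤ × (ℤ × ℤ)) := fun i => (i.2, (i.1.1 0, (i.1.1 1, i.1.1 2)))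
  have he : Function.Injective e := by
    rintro ⟨⟨k, hk⟩, s⟩ ⟨⟨k', hk'⟩, s'⟩ h
    simp only [e, Prod.mk.injEq] at h
    obtain ⟨rfl, h0, h1, h2⟩ := h
    have : k = k' := by
      funext j
      fin_cases j
      · exact h0
      · exact h1
      · exact h2
    subst this
    rfl
  refine Summable.of_nonneg_of_le (fun i => ?_) (fun i => ?_) (h4.comp_injective he)
  · have := NM_one i
    positivity
  · have hN := NM_one i
    have hN' : NM i = (i.1.1 0 : ℝ) ^ 2 + (i.1.1 1 : ℝ) ^ 2 + (i.1.1 2 : ℝ) ^ 2 := by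
      unfold NM nsq
      rw [Fin.sum_univ_three]
      push_cast
      ring
    have h0 : (0 : ℝ) ≤ (i.1.1 0 : ℝ) ^ 2 := sq_nonneg _
    have h1 : (0 : ℝ) ≤ (i.1.1 1 : ℝ) ^ 2 := sq_nonneg _
    have h2 : (0 : ℝ) ≤ (i.1.1 2 : ℝ) ^ 2 := sq_nonneg _
    show (NM i ^ 3)⁻¹ ≤ 8 * ((1 + (i.1.1 0 : ℝ) ^ 2)⁻¹ * ((1 + (i.1.1 1 : ℝ) ^ 2)⁻¹ *
      (1 + (i.1.1 2 : ℝ) ^ 2)⁻¹))
    rw [← mul_inv, ← mul_inv, ← div_eq_mul_inv, inv_eq_one_div, div_le_div_iff₀ (by positivity)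
      (by positivity), one_mul]
    generalize hx : (i.1.1 0 : ℝ) ^ 2 = x at *
    generalize hy : (i.1.1 1 : ℝ) ^ 2 = y at *
    generalize hz : (i.1.1 2 : ℝ) ^ 2 = z at *
    have hx' : 1 + x ≤ 2 * NM i := by linarith
    have hy' : 1 + y ≤ 2 * NM i := by linarith
    have hz' : 1 + z ≤ 2 * NM i := by linarith
    calc (1 + x) * ((1 + y) * (1 + z)) ≤ (2 * NM i) * ((2 * NM i) * (2 * NM i)) := by gcongr
      _ = 8 * NM i ^ 3 := by ring

lemma αM_one (n : ℕ) : 1 ≤ αM n := by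
  unfold αM
  exact_mod_cast al_pos n

theorem t_WTM : S_WTM := by
  intro hLV h hh
  obtain ⟨-, -, -, h4, -, -, h7, -⟩ := hLV
  refine ⟨NM_one, ⟨18 * Real.pi, 1, size hh⟩, ⟨3, summ⟩, ⟨2, 2, fun i hi => (h7 i hi).2⟩,
    ⟨1, 1, fun i hi => ?_⟩, ⟨2, fun j hj => ?_⟩⟩
  · have h1 := (h7 i hi).1
    have h2 := αM_one (lvM i)
    rw [one_mul, pow_one]
    nlinarith
  · have h1 := (h4 j hj).1
    have h2 : NM j = (lvM j : ℝ) := by
      unfold NM
      rw [← h1]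
      push_cast
      rfl
    rw [h2]
    have h3 : lvM j ≤ 2 ^ (lvM j + 1) :=
      (Nat.lt_two_pow_self).le.trans (Nat.pow_le_pow_right (by norm_num) (by omega))
    exact_mod_cast h3

end Pool.Agent.Y161.EM.WTM
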